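import Pool.Agent.H93.CP.Targets

/-!
# The Effros property of the core
-/

set_option autoImplicit false

open Set Filter Topology Pool.Agent.H93.CP

namespace Pool.Agent.H17.CPT

/-- right translations preserve meagre sets -/
theorem meagre_right {G : Type} [Group G] [TopologicalSpace G] [IsTopologicalGroup G]
    {A : Set G} (h : IsMeagre A) (m : G) : IsMeagre {k : G | k * m ∈ A} :=
  h.preimage_of_isOpenMap (f := fun k : G => k * m) (continuous_mul_const m)
    (Homeomorph.mulRight m).isOpenMap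

theorem pf_CEF : T_CEF := by
  intro G X _ _ _ _ _ _ D t hT y m O hy hmy hO hyO
  haveI := hT.pol
  have hreg : ∃ O1 : Set X, IsOpen[t] O1 ∧ m • y ∈ O1 ∧ closure[t] O1 ⊆ O := by
    letI := t
    haveI := hT.pol
    obtain ⟨s, hs, hcs, hsO⟩ := exists_mem_nhds_isClosed_subset (hO.mem_nhds hyO)
    exact ⟨interior s, isOpen_interior, mem_interior_iff_mem_nhds.2 hs,
      (closure_minimal interior_subset hcs).trans hsO⟩
  obtain ⟨O1, hO1, hyO1, hcl⟩ := hreg
  obtain ⟨U, hU, h1U, hUm⟩ := hmy O1 hO1 hyO1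
  have hN : {m' : G | m' * m⁻¹ ∈ U} ∈ 𝓝 m := by
    refine (hU.preimage (continuous_mul_const m⁻¹)).mem_nhds ?_
    rw [mem_preimage, mul_inv_cancel]
    exact h1U
  refine Filter.mem_of_superset hN ?_
  intro m' hm' hc'
  by_contra hno
  have hO2 : IsOpen[t] (closure[t] O1)ᶜ := by
    letI := t
    exact isClosed_closure.isOpen_compl
  have hm2 : m' • y ∈ (closure[t] O1)ᶜ := fun h => hno (hcl h)
  obtain ⟨U', hU', h1U', hUm'⟩ := hc' _ hO2 hm2
  have hA : IsMeagre {k : G | k * m⁻¹ ∈ U ∧ k • y ∉ O1} := by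
    refine (meagre_right hUm m⁻¹).mono ?_
    rintro k ⟨hk1, hk2⟩
    refine ⟨hk1, ?_⟩
    rw [smul_smul, inv_mul_cancel_right]
    exact hk2
  have hB : IsMeagre {k : G | k * m'⁻¹ ∈ U' ∧ k • y ∉ (closure[t] O1)ᶜ} := by
    refine (meagre_right hUm' m'⁻¹).mono ?_
    rintro k ⟨hk1, hk2⟩
    refine ⟨hk1, ?_⟩
    rw [smul_smul, inv_mul_cancel_right]
    exact hk2
  have hopen : IsOpen ({k : G | k * m⁻¹ ∈ U} ∩ {k : G | k * m'⁻¹ ∈ U'}) :=
    (hU.preimage (continuous_mul_const m⁻¹)).inter (hU'.preimage (continuous_mul_const m'⁻¹))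
  refine not_isMeagre_of_isOpen hopen ⟨m', hm', ?_⟩ ((hA.union hB).mono ?_)
  · show m' * m'⁻¹ ∈ U'
    rw [mul_inv_cancel]
    exact h1U'
  · rintro k ⟨hk1, hk2⟩
    by_cases hk : k • y ∈ O1
    · right
      refine ⟨hk2, fun h => h ?_⟩
      letI := t
      exact subset_closure hk
    · exact Or.inl ⟨hk1, hk⟩

end Pool.Agent.H17.CPT
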