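import Pool.Agent.H93.CP.Targets

/-!
# Paths with cofinally many common ends and convergent quotients are in one orbit
-/

set_option autoImplicit false

open Set Filter Topology Pool.Agent.H93.CP

namespace Pool.Agent.H17.CPT

/-- words of a path which are not longer than a given word -/
theorem mem_iff_prefix {G : Type} {S : Gr G} {x : S.Path} {w v : List S.E} (hv : S.Mem v x)
    (h : w.length ≤ v.length) : S.Mem w x ↔ w <+: v := by
  constructor
  · intro hw
    rcases x.2.lin _ _ hw hv with h1 | h1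
    · exact h1
    · have h2 : v = w := h1.eq_of_length (le_antisymm h1.length_le h)
      rw [h2]
  · intro hw
    exact x.2.pre _ _ hw hv

/-- convergence of paths -/
theorem tendsto_path {G : Type} {S : Gr G} {z : S.Path} {zn : ℕ → S.Path} {ζ : ℕ → List S.E}
    (h1 : ∀ n, S.Mem (ζ n) z) (h2 : ∀ n, S.Mem (ζ n) (zn n)) (h3 : ∀ n, n ≤ (ζ n).length) :
    Tendsto zn atTop (𝓝 z) := by
  refine tendsto_subtype_rng.2 (tendsto_pi_nhds.2 fun w => ?_)
  refine tendsto_const_nhds.congr' ?_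
  filter_upwards [eventually_ge_atTop w.length] with n hn
  have h4 : w.length ≤ (ζ n).length := hn.trans (h3 n)
  have h5 := mem_iff_prefix (h1 n) h4
  have h6 := mem_iff_prefix (h2 n) h4
  have h7 : z.1 w = true ↔ (zn n).1 w = true := h5.trans h6.symm
  exact Bool.eq_iff_iff.2 h7

theorem pf_LIM (hSQD : T_SQD) (hLMH : T_LMH) (hLMC : T_LMC) (hPWD : T_PWD) : T_LIM := by
  classical
  intro G X _ _ _ _ _ Y b z p hb hz hL
  obtain ⟨β, ζ, hβ, hζ, he, hpb, hpz, hlb, hlz, hp⟩ := hL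
  obtain ⟨γ, hs, hγ⟩ := hSQD G X Y b z β ζ hβ hζ he hpb hpz hlb hlz
  obtain ⟨h, hhb, hh⟩ := hLMH G Y.S b z β ζ γ hs
  obtain ⟨c, hcb, hc⟩ := hLMC G Y.S b z β ζ γ p hs hp
  have huniq := (hPWD G Y.S).2.2.2.2.2.2.2
  have hcase : ∀ y : Y.S.Path, (∃ n, ¬ Y.S.Mem (β n) y) ∨ b = y := by
    intro y
    by_cases hy : ∃ n, ¬ Y.S.Mem (β n) y
    · exact Or.inl hy
    · push Not at hy
      exact Or.inr (huniq b y hb fun n => ⟨β n, hlb n, hβ n, hy n⟩)
  have hinf : ∀ n, Y.S.Inf ((γ n).h b) := by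
    intro n l hl
    exact hb l (((hγ n).1 l b).1 hl)
  refine ⟨⟨h, c⟩, ⟨?_, ?_⟩, hhb⟩
  · intro l y
    rcases hcase y with ⟨n, hn⟩ | rfl
    · show Y.S.Bdd l (h y) ↔ Y.S.Bdd l y
      rw [hh n y hn]
      exact (hγ n).1 l y
    · show Y.S.Bdd l (h b) ↔ Y.S.Bdd l b
      rw [hhb]
      exact ⟨fun h1 => absurd h1 (hz l), fun h1 => absurd h1 (hb l)⟩
  · intro y hy
    show c y • Y.P y = Y.P (h y)
    rcases hcase y with ⟨n, hn⟩ | rfl
    · rw [hh n y hn, hc n y hn]
      exact (hγ n).2 y hy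
    · rw [hhb, hcb]
      have hmem : ∀ n, Y.S.Mem (ζ n) ((γ n).h b) := fun n => (hs.rep n b (hβ n)).1.2.1
      refine Y.cl b z (fun n => (γ n).h b) p
        (fun n => Y.S.pr (ζ n) * (Y.S.pr (β n))⁻¹) hb hz hinf
        (tendsto_path hζ hmem hlz) hp ?_
      intro n
      have h1 := (hγ n).2 b hb
      rw [(hs.rep n b (hβ n)).2] at h1
      exact h1

end Pool.Agent.H17.CPT
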