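import Pool.Agent.H93.CP.Targets

/-!
# The limit of the cocycles
-/

set_option autoImplicit false

open Set Filter Topology Pool.Agent.H93.CP

namespace Pool.Agent.H17.CPT

section

variable {G : Type} [Group G] [TopologicalSpace G] {S : Gr G} {b z : S.Path}
  {β ζ : ℕ → List S.E} {γ : ℕ → HC S.Path G}

theorem prefix_mono (hs : IsSeq S b z β ζ γ) {n m : ℕ} (h : n ≤ m) : β n <+: β m := by
  induction m, h using Nat.le_induction with
  | base => exact List.prefix_rfl
  | succ k _ ih => exact ih.trans (hs.preb k)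

theorem not_mem_mono (hs : IsSeq S b z β ζ γ) {n m : ℕ} (h : n ≤ m) {y : S.Path}
    (hn : ¬ S.Mem (β n) y) : ¬ S.Mem (β m) y := fun hm =>
  hn (y.2.pre _ _ (prefix_mono hs h) hm)

theorem c_stable (hs : IsSeq S b z β ζ γ) {n m : ℕ} (h : n ≤ m) {y : S.Path}
    (hn : ¬ S.Mem (β n) y) : (γ m).c y = (γ n).c y := by
  induction m, h using Nat.le_induction with
  | base => rfl
  | succ k hk ih => rw [(hs.out k y (not_mem_mono hs hk hn)).2, ih]

open scoped Classical in
/-- the limit cocycle -/
noncomputable def limc (β : ℕ → List S.E) (γ : ℕ → HC S.Path G) (p : G) (y : S.Path) : G :=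
  if h : ∃ n, ¬ S.Mem (β n) y then (γ (Nat.find h)).c y else p

theorem limc_of (hs : IsSeq S b z β ζ γ) (p : G) {n : ℕ} {y : S.Path}
    (hn : ¬ S.Mem (β n) y) : limc β γ p y = (γ n).c y := by
  classical
  have h : ∃ n, ¬ S.Mem (β n) y := ⟨n, hn⟩
  unfold limc
  rw [dif_pos h]
  exact (c_stable hs (Nat.find_min' h hn) (Nat.find_spec h)).symm

theorem limc_all (p : G) {y : S.Path} (h : ∀ n, S.Mem (β n) y) : limc β γ p y = p := by
  unfold limc
  rw [dif_neg]
  rintro ⟨n, hn⟩
  exact hn (h n)

end

theorem pf_LMC (_hPWD : T_PWD) (hPCO : T_PCO) : T_LMC := by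
  classical
  intro G _ _ _ S b z β ζ γ p hs hp
  have hclo := (hPCO G S).2.2.2.2.2
  have hcont : Continuous (limc β γ p) := by
    rw [continuous_iff_continuousAt]
    intro y
    by_cases hy : ∃ n, ¬ S.Mem (β n) y
    · obtain ⟨n, hn⟩ := hy
      have h1 : {y' : S.Path | ¬ S.Mem (β n) y'} ∈ 𝓝 y :=
        (hclo (β n)).compl.isOpen.mem_nhds hn
      have h2 : ContinuousAt (fun y' => (γ n).c y') y := (γ n).c.continuous.continuousAt
      refine h2.congr ?_
      filter_upwards [h1] with y' hy'
      exact (limc_of hs p hy').symm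
    · push Not at hy
      rw [ContinuousAt, limc_all p hy]
      intro N hN
      have h3 : Tendsto (fun n => (S.pr (ζ n) * (S.pr (β n))⁻¹) *
          (S.pr (ζ (n + 1)) * (S.pr (β (n + 1)))⁻¹)⁻¹ * (S.pr (ζ n) * (S.pr (β n))⁻¹))
          atTop (𝓝 p) := by
        have h4 := (hp.mul ((hp.comp (tendsto_add_atTop_nat 1)).inv)).mul hp
        rw [mul_inv_cancel, one_mul] at h4
        exact h4
      obtain ⟨n0, hn0⟩ := Filter.eventually_atTop.1
        ((hp.eventually_mem hN).and (h3.eventually_mem hN))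
      have h5 : {y' : S.Path | S.Mem (β n0) y'} ∈ 𝓝 y := (hclo (β n0)).isOpen.mem_nhds (hy n0)
      rw [mem_map]
      refine Filter.mem_of_superset h5 ?_
      intro y' hy'
      show limc β γ p y' ∈ N
      by_cases hy2 : ∃ n, ¬ S.Mem (β n) y'
      · have h6 : n0 < Nat.find hy2 := by
          by_contra hle
          exact not_mem_mono hs (not_lt.1 hle) (Nat.find_spec hy2) hy'
        obtain ⟨k, hk⟩ := Nat.exists_eq_add_of_lt h6
        have hk' : Nat.find hy2 = (n0 + k) + 1 := hk
        have h7 : ¬ S.Mem (β ((n0 + k) + 1)) y' := by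
          rw [← hk']
          exact Nat.find_spec hy2
        have h8 : S.Mem (β (n0 + k)) y' := by
          by_contra h9
          have h10 := Nat.find_min' hy2 h9
          omega
        rw [limc_of hs p h7]
        have h11 := hn0 (n0 + k) (Nat.le_add_right _ _)
        rcases hs.val (n0 + k) y' h8 h7 with h | h
        · rw [h]; exact h11.1
        · rw [h]; exact h11.2
      · push Not at hy2
        rw [limc_all p hy2]
        exact mem_of_mem_nhds hN
  exact ⟨⟨limc β γ p, hcont⟩, limc_all p hs.memb, fun n y hn => limc_of hs p hn⟩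

end Pool.Agent.H17.CPT
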